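import Pool.Agent.H5.CQ.Defs
import Pool.Agent.H52.AC.EVH

/-!
# [H5 CQ ANA] the roots as analytic functions

`X0 ≥ B^(4 n! + 4)`, `R, q ≤ B`, `e ≤ n!`, `‖coeff k (x i)‖ ≤ R^(k+1)`. For `|z - X0| ≤ X0/2`: `Re z ≥ X0/2 > 0` (slit plane) and `|z| ≥ X0/2 ≥ (4 B)^e` (`(4B)^e ≤ B^(3 e) ≤ B^(3 n!)`), so
`|z|^(-1/e) ≤ 1/(4 B)` and `‖T‖ ≤ 1/(4 R)` for `T = q^(-1) z^(-1/e)` (`Complex.norm_cpow_real`).
* `thz_diff`: `w ↦ ∑' c_k w^k` is differentiable on the open ball `‖w‖ < 3/(4R)` (`Complex.differentiableOn_tsum_of_summable_norm`, `‖c_k w^k‖ ≤ R (3/4)^k`); `z ↦ z^(-1/e)` is differentiable in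
  the slit plane; composition and product.
* `thz_bd`: `|∑ c_k T^k| ≤ ∑ R^(k+1) (4R)^(-k) ≤ 2 R ≤ B^2` (`B ≥ 2`), `|z| ≤ 2 X0`.
* `thz_nat`: at `z = a`, `T = 1/XA pd a` is real positive, `R T ≤ 1/4`; `evC h w = ∑' Re(c_k) h^k + i ∑' Im(c_k) h^k` (unfold `evC`, `tayC`, `tay`, `constantCoeff`) `= ∑' c_k h^k = evz h w` (summable).
-/

namespace H5CQ

open Finset Polynomial Pool.Agent.H87.SA2 Pool.Agent.H52.AC Pool.Agent.H97.FB Pool.Agent.H97.GA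

variable {n m B : ℕ} {f : ℤ[X][X]}

/-- the argument of the series is small -/
private theorem ana_T (Fm : FamB n m B f) (X0 : ℕ) (h : B ^ (4 * n.factorial + 4) ≤ X0) (z : ℂ)
    (hz : (X0 : ℝ) / 2 ≤ ‖z‖) :
    ‖((Fm.pd.q : ℂ)⁻¹ * z ^ (((-(1 / (Fm.pd.e : ℝ)) : ℝ)) : ℂ))‖ ≤ (4 * Fm.pd.R)⁻¹ := by
  have hB : 2 ≤ B := Fm.B2
  have hBr : (2 : ℝ) ≤ B := by exact_mod_cast hB
  have hR := Fm.pd.R_ge
  have hRB := Fm.R_le
  have he := Fm.pd.e_pos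
  have hq := Fm.pd.q_pos
  have hq1 : (1 : ℝ) ≤ Fm.pd.q := by exact_mod_cast hq
  have hX : (B : ℝ) ^ (4 * n.factorial + 4) ≤ X0 := by exact_mod_cast h
  have h1 : (4 * (B : ℝ)) ^ Fm.pd.e ≤ ‖z‖ := by
    calc (4 * (B : ℝ)) ^ Fm.pd.e ≤ ((B : ℝ) ^ 3) ^ Fm.pd.e := by
          refine pow_le_pow_left₀ (by positivity) ?_ _
          nlinarith [mul_nonneg (by linarith : (0 : ℝ) ≤ B) (by nlinarith : (0 : ℝ) ≤ (B : ℝ) ^ 2 - 4)]
      _ ≤ ((B : ℝ) ^ 3) ^ n.factorial :=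
          pow_le_pow_right₀ (one_le_pow₀ (by linarith)) Fm.e_le
      _ = (B : ℝ) ^ (3 * n.factorial) := by rw [← pow_mul]
      _ ≤ (B : ℝ) ^ (4 * n.factorial + 4) / 2 := by
          rw [le_div_iff₀ (by norm_num)]
          calc (B : ℝ) ^ (3 * n.factorial) * 2 ≤ (B : ℝ) ^ (3 * n.factorial) * B :=
                mul_le_mul_of_nonneg_left hBr (by positivity)
            _ = (B : ℝ) ^ (3 * n.factorial + 1) := by rw [pow_succ]
            _ ≤ (B : ℝ) ^ (4 * n.factorial + 4) := pow_le_pow_right₀ (by linarith) (by omega)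
      _ ≤ X0 / 2 := by linarith
      _ ≤ ‖z‖ := hz
  have hepos : (0 : ℝ) < Fm.pd.e := by exact_mod_cast he
  have h2 : 4 * (B : ℝ) ≤ ‖z‖ ^ (1 / (Fm.pd.e : ℝ)) := by
    have h3 : ((4 * (B : ℝ)) ^ Fm.pd.e) ^ (1 / (Fm.pd.e : ℝ)) = 4 * (B : ℝ) := by
      rw [one_div, Real.pow_rpow_inv_natCast (by positivity) (by omega)]
    rw [← h3]
    exact Real.rpow_le_rpow (by positivity) h1 (by positivity)
  have h3 : ‖z ^ (((-(1 / (Fm.pd.e : ℝ)) : ℝ)) : ℂ)‖ ≤ (4 * (B : ℝ))⁻¹ := by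
    rw [Complex.norm_cpow_real, Real.rpow_neg (norm_nonneg _)]
    exact inv_anti₀ (by positivity) h2
  rw [norm_mul, norm_inv, Complex.norm_natCast]
  calc (Fm.pd.q : ℝ)⁻¹ * ‖z ^ (((-(1 / (Fm.pd.e : ℝ)) : ℝ)) : ℂ)‖ ≤ 1 * (4 * (B : ℝ))⁻¹ :=
        mul_le_mul (inv_le_one_of_one_le₀ hq1) h3 (norm_nonneg _) zero_le_one
    _ = (4 * (B : ℝ))⁻¹ := one_mul _
    _ ≤ (4 * Fm.pd.R)⁻¹ := inv_anti₀ (by linarith) (by linarith)

private theorem ana_gr (Fm : FamB n m B f) (i : Fin n) : Gr (2 * Fm.pd.R)⁻¹ (Fm.pd.x i) := by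
  have hR := Fm.pd.R_ge
  refine gr_of_le (R := Fm.pd.R) (C := Fm.pd.R) (by linarith) (inv_nonneg.2 (by linarith)) ?_
    fun k => ?_
  · rw [mul_inv, mul_comm (2 : ℝ)⁻¹, ← mul_assoc, mul_inv_cancel₀ (by linarith)]
    norm_num
  · rw [← pow_succ']
    exact Fm.pd.growth i k

private theorem ana_re (X0 : ℕ) (hX : 0 < X0) (z : ℂ) (hz : ‖z - X0‖ ≤ X0 / 2) :
    0 < z.re ∧ (X0 : ℝ) / 2 ≤ ‖z‖ ∧ ‖z‖ ≤ 2 * X0 := by
  have hX0 : (0 : ℝ) < X0 := by exact_mod_cast hX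
  have h1 : |(z - X0).re| ≤ X0 / 2 := (Complex.abs_re_le_norm _).trans hz
  rw [Complex.sub_re, Complex.natCast_re] at h1
  have h2 := (abs_le.1 h1).1
  have h3 : z.re ≤ ‖z‖ := (le_abs_self _).trans (Complex.abs_re_le_norm _)
  refine ⟨by linarith, by linarith, ?_⟩
  have h4 : ‖z‖ ≤ ‖z - X0‖ + ‖(X0 : ℂ)‖ := by
    have := norm_add_le (z - X0) (X0 : ℂ)
    rwa [sub_add_cancel] at this
  rw [Complex.norm_natCast] at h4
  linarith

private theorem ana_X0 (Fm : FamB n m B f) (X0 : ℕ) (h : B ^ (4 * n.factorial + 4) ≤ X0) :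
    0 < X0 := by
  have hB : 2 ≤ B := Fm.B2
  have : 0 < B ^ (4 * n.factorial + 4) := by positivity
  omega

theorem thz_diff (Fm : FamB n m B f) (X0 : ℕ) (h : B ^ (4 * n.factorial + 4) ≤ X0) (i : Fin n) (z : ℂ)
    (hz : ‖z - X0‖ ≤ X0 / 2) : DifferentiableAt ℂ (thz Fm.pd m i) z := by
  obtain ⟨hre, hlo, _⟩ := ana_re X0 (ana_X0 Fm X0 h) z hz
  have hR := Fm.pd.R_ge
  have h1 := ana_T Fm X0 h z hlo
  have h2 : ((Fm.pd.q : ℂ)⁻¹ * z ^ (((-(1 / (Fm.pd.e : ℝ)) : ℝ)) : ℂ)) ∈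
      Metric.ball (0 : ℂ) (2 * Fm.pd.R)⁻¹ := by
    rw [mem_ball_zero_iff]
    refine h1.trans_lt ?_
    exact inv_strictAnti₀ (by linarith) (by linarith)
  have h3 : DifferentiableAt ℂ (fun T => evz T (Fm.pd.x i))
      ((Fm.pd.q : ℂ)⁻¹ * z ^ (((-(1 / (Fm.pd.e : ℝ)) : ℝ)) : ℂ)) :=
    (evz_diff (ana_gr Fm i)).differentiableAt (Metric.isOpen_ball.mem_nhds h2)
  have h4 : DifferentiableAt ℂ (fun z : ℂ => (Fm.pd.q : ℂ)⁻¹ *
      z ^ (((-(1 / (Fm.pd.e : ℝ)) : ℝ)) : ℂ)) z := by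
    refine DifferentiableAt.const_mul ?_ _
    exact DifferentiableAt.cpow differentiableAt_id (differentiableAt_const _) (Or.inl hre)
  have h5 : DifferentiableAt ℂ (fun z : ℂ => evz ((Fm.pd.q : ℂ)⁻¹ *
      z ^ (((-(1 / (Fm.pd.e : ℝ)) : ℝ)) : ℂ)) (Fm.pd.x i)) z :=
    DifferentiableAt.comp (g := fun T => evz T (Fm.pd.x i)) z h3 h4
  have h6 : DifferentiableAt ℂ (fun z : ℂ => z ^ m) z := differentiableAt_id.pow m
  exact h6.mul h5

theorem thz_bd (Fm : FamB n m B f) (X0 : ℕ) (h : B ^ (4 * n.factorial + 4) ≤ X0) (i : Fin n) (z : ℂ)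
    (hz : ‖z - X0‖ ≤ X0 / 2) : ‖thz Fm.pd m i z‖ ≤ (B : ℝ) ^ 2 * (2 * X0) ^ m := by
  obtain ⟨_, hlo, hhi⟩ := ana_re X0 (ana_X0 Fm X0 h) z hz
  have hR := Fm.pd.R_ge
  have hRB := Fm.R_le
  have h1 := ana_T Fm X0 h z hlo
  have hBr : (2 : ℝ) ≤ B := by exact_mod_cast Fm.B2
  unfold thz
  rw [norm_mul, norm_pow, mul_comm]
  refine mul_le_mul ?_ (pow_le_pow_left₀ (norm_nonneg _) hhi m) (by positivity) (by positivity)
  have h2 := evz_le (R := Fm.pd.R) (C := Fm.pd.R) (by linarith) (by linarith)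
    (T := ((Fm.pd.q : ℂ)⁻¹ * z ^ (((-(1 / (Fm.pd.e : ℝ)) : ℝ)) : ℂ))) (by
      have h3 := mul_le_mul_of_nonneg_left h1 (by linarith : (0 : ℝ) ≤ Fm.pd.R)
      refine h3.trans ?_
      rw [mul_inv, mul_comm (4 : ℝ)⁻¹, ← mul_assoc, mul_inv_cancel₀ (by linarith)]
      norm_num) (w := Fm.pd.x i) (fun k => by
      rw [← pow_succ']
      exact Fm.pd.growth i k)
  refine h2.trans ?_
  nlinarith

private theorem ana_evC {r h : ℝ} (hh : 0 ≤ h) (hr : h ≤ r) {w : PowerSeries ℂ} (hw : Gr r w) :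
    evC h w = evz (h : ℂ) w := by
  have hs := evz_hasSum (T := (h : ℂ)) (by
    rw [Complex.norm_real, Real.norm_of_nonneg hh]
    exact hr) hw
  have hre := (Complex.hasSum_re hs).tsum_eq
  have him := (Complex.hasSum_im hs).tsum_eq
  have e1 : ∀ k, (PowerSeries.coeff k w * (h : ℂ) ^ k).re = (PowerSeries.coeff k w).re * h ^ k := by
    intro k
    rw [← Complex.ofReal_pow, Complex.re_mul_ofReal]
  have e2 : ∀ k, (PowerSeries.coeff k w * (h : ℂ) ^ k).im = (PowerSeries.coeff k w).im * h ^ k := by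
    intro k
    rw [← Complex.ofReal_pow, Complex.im_mul_ofReal]
  simp only [e1] at hre
  simp only [e2] at him
  have t1 : PowerSeries.constantCoeff (Pool.Agent.H87.SA.tay h (reS w)) = (evz (h : ℂ) w).re := by
    rw [← hre, ← PowerSeries.coeff_zero_eq_constantCoeff_apply]
    unfold Pool.Agent.H87.SA.tay reS
    rw [PowerSeries.coeff_mk]
    congr 1
    funext k
    rw [Nat.choose_zero_right, Nat.cast_one, one_mul, zero_add, PowerSeries.coeff_mk]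
  have t2 : PowerSeries.constantCoeff (Pool.Agent.H87.SA.tay h (imS w)) = (evz (h : ℂ) w).im := by
    rw [← him, ← PowerSeries.coeff_zero_eq_constantCoeff_apply]
    unfold Pool.Agent.H87.SA.tay imS
    rw [PowerSeries.coeff_mk]
    congr 1
    funext k
    rw [Nat.choose_zero_right, Nat.cast_one, one_mul, zero_add, PowerSeries.coeff_mk]
  have m1 : ∀ s : PowerSeries ℝ, PowerSeries.constantCoeff (s.map Complex.ofRealHom) =
      ((PowerSeries.constantCoeff s : ℝ) : ℂ) := by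
    intro s
    rw [← PowerSeries.coeff_zero_eq_constantCoeff_apply, PowerSeries.coeff_map,
      PowerSeries.coeff_zero_eq_constantCoeff_apply]
    rfl
  unfold evC tayC
  rw [map_add, map_mul, m1, m1, t1, t2, PowerSeries.constantCoeff_C, mul_comm]
  exact Complex.re_add_im _

theorem thz_nat (Fm : FamB n m B f) (X0 : ℕ) (h : B ^ (4 * n.factorial + 4) ≤ X0) (i : Fin n) (a : ℕ)
    (ha : X0 ≤ a) : thz Fm.pd m i (a : ℂ) = thA Fm.pd m a i := by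
  have hX := ana_X0 Fm X0 h
  have hR := Fm.pd.R_ge
  have ha0 : (0 : ℝ) < a := by
    have : 0 < a := by omega
    exact_mod_cast this
  have haX : (X0 : ℝ) ≤ a := by exact_mod_cast ha
  have hX0 : (0 : ℝ) < X0 := by exact_mod_cast hX
  have h1 := ana_T Fm X0 h (a : ℂ) (by
    rw [Complex.norm_natCast]
    linarith)
  have hq : (0 : ℝ) < Fm.pd.q := by exact_mod_cast Fm.pd.q_pos
  have e1 : ((Fm.pd.q : ℂ)⁻¹ * (a : ℂ) ^ (((-(1 / (Fm.pd.e : ℝ)) : ℝ)) : ℂ)) =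
      ((1 / XA Fm.pd a : ℝ) : ℂ) := by
    have e2 : (a : ℂ) ^ (((-(1 / (Fm.pd.e : ℝ)) : ℝ)) : ℂ) =
        (((a : ℝ) ^ (-(1 / (Fm.pd.e : ℝ))) : ℝ) : ℂ) := by
      rw [Complex.ofReal_cpow ha0.le, Complex.ofReal_natCast]
    rw [e2]
    unfold XA
    rw [Real.rpow_neg ha0.le, one_div (_ * _), mul_inv]
    push_cast
    rfl
  have hh : 0 ≤ 1 / XA Fm.pd a := by
    unfold XA
    positivity
  unfold thz thA
  rw [e1] at h1 ⊢
  rw [Complex.norm_real, Real.norm_of_nonneg hh] at h1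
  rw [ana_evC hh (h1.trans (inv_anti₀ (by linarith) (by linarith))) (ana_gr Fm i)]

end H5CQ
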