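import Pool.Agent.H5.CQ.Defs0

/-!
# [H5 CQ COF] coefficients of `∏_{l ∈ T} (X - θ_l)`

Induction on `T` (`Finset.induction_on`), for all `i` at once: `((X - C a) * p).coeff (i + 1) = p.coeff i - a p.coeff (i + 1)`, `((X - C a) * p).coeff 0 = - a p.coeff 0`
(`Polynomial.coeff_X_sub_C_mul`, `mul_coeff_zero`); for `EE_bd` prove `‖coeff‖ ≤ (1 + K)^(T.card)`, `T.card ≤ n`, `1 + K ≥ 1`.
-/

namespace H5CQ

open Finset Polynomial

variable {n : ℕ}

private theorem cof_zero (θ : Fin n → ℂ → ℂ) {T : Finset (Fin n)} {a : Fin n} (ha : a ∉ T) (z : ℂ) :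
    EE θ (insert a T) 0 z = -(θ a z * EE θ T 0 z) := by
  unfold EE
  rw [Finset.prod_insert ha, mul_coeff_zero]
  simp

private theorem cof_succ (θ : Fin n → ℂ → ℂ) {T : Finset (Fin n)} {a : Fin n} (ha : a ∉ T) (i : ℕ)
    (z : ℂ) : EE θ (insert a T) (i + 1) z = EE θ T i z - θ a z * EE θ T (i + 1) z := by
  unfold EE
  rw [Finset.prod_insert ha, coeff_X_sub_C_mul]

private theorem cof_empty (θ : Fin n → ℂ → ℂ) (i : ℕ) (z : ℂ) :
    EE θ ∅ i z = if i = 0 then 1 else 0 := by
  unfold EE
  rw [Finset.prod_empty, coeff_one]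

theorem EE_diff (θ : Fin n → ℂ → ℂ) (T : Finset (Fin n)) (i : ℕ) (z : ℂ) (h : ∀ l, DifferentiableAt ℂ (θ l) z) :
    DifferentiableAt ℂ (EE θ T i) z := by
  induction T using Finset.induction_on generalizing i with
  | empty =>
    have e : EE θ ∅ i = fun _ => if i = 0 then (1 : ℂ) else 0 := funext fun z => cof_empty θ i z
    rw [e]
    exact differentiableAt_const _
  | insert a T ha ih =>
    cases i with
    | zero =>
      have e : EE θ (insert a T) 0 = fun z => -(θ a z * EE θ T 0 z) :=
        funext fun z => cof_zero θ ha z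
      rw [e]
      exact ((h a).mul (ih 0)).neg
    | succ i =>
      have e : EE θ (insert a T) (i + 1) = fun z => EE θ T i z - θ a z * EE θ T (i + 1) z :=
        funext fun z => cof_succ θ ha i z
      rw [e]
      exact (ih i).sub ((h a).mul (ih (i + 1)))

theorem EE_bd (θ : Fin n → ℂ → ℂ) (T : Finset (Fin n)) (i : ℕ) (z : ℂ) (K : ℝ) (hK : 0 ≤ K) (h : ∀ l, ‖θ l z‖ ≤ K) :
    ‖EE θ T i z‖ ≤ (1 + K) ^ n := by
  have h1 : ∀ i, ‖EE θ T i z‖ ≤ (1 + K) ^ T.card := by
    induction T using Finset.induction_on with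
    | empty =>
      intro i
      rw [cof_empty, Finset.card_empty, pow_zero]
      split_ifs
      · simp
      · simp
    | insert a T ha ih =>
      intro i
      rw [Finset.card_insert_of_notMem ha, pow_succ]
      have hp : 0 ≤ (1 + K) ^ T.card := by positivity
      cases i with
      | zero =>
        rw [cof_zero θ ha, norm_neg, norm_mul]
        have h2 := mul_le_mul (h a) (ih 0) (norm_nonneg _) hK
        nlinarith
      | succ i =>
        rw [cof_succ θ ha]
        have h2 := mul_le_mul (h a) (ih (i + 1)) (norm_nonneg _) hK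
        have h3 := norm_sub_le (EE θ T i z) (θ a z * EE θ T (i + 1) z)
        rw [norm_mul] at h3
        have h4 := ih i
        nlinarith
  refine (h1 i).trans (pow_le_pow_right₀ (by linarith) ?_)
  have h2 := Finset.card_le_univ T
  rwa [Fintype.card_fin] at h2

end H5CQ
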