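import Pool.Agent.H5.CQ.Defs0

/-!
# [H5 CQ DDC] divided differences by Cauchy's integral

`r = X0/2`. For `z` on the circle `|z - X0| = r`: `∏_{a ∈ s} (z - a)⁻¹ = ∑_{a ∈ s} (z - a)⁻¹ ∏_{b ≠ a} (a - b)⁻¹` (partial fractions: Mathlib `Lagrange.eval_interpolate_not_at_node` for the constant
function `1`, `Lagrange.nodalWeight`, or `Finset` induction). Cauchy: `∮ (z - a)⁻¹ • E z = 2πi E(a)` for `a` in the open ball (`DiffContOnCl.circleIntegral_sub_inv_smul`;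
`E` is differentiable on the closed ball, `DifferentiableOn.diffContOnCl`, `closure_ball`). So `2πi DD s E = ∮ E(z) ∏ (z - a)⁻¹`, and `|z - a| ≥ X0/2 - X0/4 = X0/4` on the circle:
`circleIntegral.norm_integral_le_of_norm_le_const`: `2π |DD| ≤ 2π (X0/2) K (4/X0)^(s.card)`.
-/

namespace H5CQ

open Finset Polynomial

private theorem ddc_pf {s : Finset ℕ} (hs : s.Nonempty) (z : ℂ) (hz : ∀ a ∈ s, z ≠ (a : ℂ)) :
    ∏ a ∈ s, (z - (a : ℂ))⁻¹ = ∑ a ∈ s, (z - (a : ℂ))⁻¹ * ∏ b ∈ s.erase a, ((a : ℂ) - (b : ℂ))⁻¹ := by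
  classical
  have h1 := Lagrange.sum_basis (F := ℂ) (s := s) (v := fun a : ℕ => (a : ℂ))
    (fun a _ b _ h => Nat.cast_injective h) hs
  have h2 := congrArg (Polynomial.eval z) h1
  rw [eval_finsetSum, eval_one] at h2
  have h3 : ∀ a ∈ s, (Lagrange.basis s (fun a : ℕ => (a : ℂ)) a).eval z =
      (∏ b ∈ s.erase a, ((a : ℂ) - (b : ℂ))⁻¹) * ∏ b ∈ s.erase a, (z - (b : ℂ)) := by
    intro a _
    unfold Lagrange.basis Lagrange.basisDivisor
    rw [eval_prod, ← prod_mul_distrib]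
    refine prod_congr rfl fun b _ => ?_
    simp
  rw [sum_congr rfl h3] at h2
  calc ∏ a ∈ s, (z - (a : ℂ))⁻¹ = (∏ a ∈ s, (z - (a : ℂ))⁻¹) * 1 := by rw [mul_one]
    _ = ∑ a ∈ s, (∏ a ∈ s, (z - (a : ℂ))⁻¹) *
        ((∏ b ∈ s.erase a, ((a : ℂ) - (b : ℂ))⁻¹) * ∏ b ∈ s.erase a, (z - (b : ℂ))) := by
        rw [← h2, mul_sum]
    _ = _ := by
        refine sum_congr rfl fun a ha => ?_
        rw [← mul_prod_erase s (fun a : ℕ => (z - (a : ℂ))⁻¹) ha]
        have h4 : (∏ b ∈ s.erase a, (z - (b : ℂ))⁻¹) * ∏ b ∈ s.erase a, (z - (b : ℂ)) = 1 := by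
          rw [← prod_mul_distrib]
          refine prod_eq_one fun b hb => ?_
          exact inv_mul_cancel₀ (sub_ne_zero.2 (hz b (mem_of_mem_erase hb)))
        calc (z - (a : ℂ))⁻¹ * (∏ b ∈ s.erase a, (z - (b : ℂ))⁻¹) *
            ((∏ b ∈ s.erase a, ((a : ℂ) - (b : ℂ))⁻¹) * ∏ b ∈ s.erase a, (z - (b : ℂ)))
            = (z - (a : ℂ))⁻¹ * (∏ b ∈ s.erase a, ((a : ℂ) - (b : ℂ))⁻¹) *
              ((∏ b ∈ s.erase a, (z - (b : ℂ))⁻¹) * ∏ b ∈ s.erase a, (z - (b : ℂ))) := by ring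
          _ = _ := by rw [h4, mul_one]

theorem dd_bd (E : ℂ → ℂ) (X0 : ℕ) (hX : 4 ≤ X0) (K : ℝ) (hd : ∀ z : ℂ, ‖z - X0‖ ≤ X0 / 2 → DifferentiableAt ℂ E z)
    (hK : ∀ z : ℂ, ‖z - X0‖ ≤ X0 / 2 → ‖E z‖ ≤ K) (s : Finset ℕ) (hs : ∀ a ∈ s, X0 ≤ a ∧ 4 * (a - X0) ≤ X0) :
    ‖DD s (fun a => E (a : ℂ))‖ ≤ X0 / 2 * K * (4 / X0) ^ s.card := by
  classical
  have hXR : (4 : ℝ) ≤ X0 := by exact_mod_cast hX
  have hK0 : 0 ≤ K := (norm_nonneg _).trans (hK X0 (by rw [sub_self, norm_zero]; positivity))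
  rcases s.eq_empty_or_nonempty with rfl | hne
  · simp only [DD, sum_empty, norm_zero, card_empty, pow_zero, mul_one]
    positivity
  set r : ℝ := (X0 : ℝ) / 2 with hr
  have hr0 : 0 < r := by positivity
  have hda : ∀ a ∈ s, ‖((a : ℂ) - (X0 : ℂ))‖ ≤ X0 / 4 := by
    intro a ha
    obtain ⟨h1, h2⟩ := hs a ha
    have h3 : ((a : ℂ) - (X0 : ℂ)) = (((a - X0 : ℕ) : ℝ) : ℂ) := by
      rw [Nat.cast_sub h1]
      push_cast
      ring
    rw [h3, Complex.norm_real, Real.norm_eq_abs, abs_of_nonneg (Nat.cast_nonneg _)]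
    have h4 : (4 : ℝ) * ((a - X0 : ℕ) : ℝ) ≤ X0 := by exact_mod_cast h2
    linarith
  have hcirc : ∀ z ∈ Metric.sphere (X0 : ℂ) r, ∀ a ∈ s, (X0 : ℝ) / 4 ≤ ‖z - (a : ℂ)‖ := by
    intro z hz a ha
    rw [mem_sphere_iff_norm] at hz
    have h1 := hda a ha
    have h2 : ‖z - (X0 : ℂ)‖ ≤ ‖z - (a : ℂ)‖ + ‖(a : ℂ) - (X0 : ℂ)‖ := by
      have := norm_add_le (z - (a : ℂ)) ((a : ℂ) - (X0 : ℂ))
      rwa [sub_add_sub_cancel] at this
    rw [hz, hr] at h2
    linarith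
  have hne0 : ∀ z ∈ Metric.sphere (X0 : ℂ) r, ∀ a ∈ s, z ≠ (a : ℂ) := by
    intro z hz a ha h0
    have := hcirc z hz a ha
    rw [h0, sub_self, norm_zero] at this
    linarith
  have hEc : ∀ z ∈ Metric.closedBall (X0 : ℂ) r, DifferentiableAt ℂ E z := by
    intro z hz
    rw [mem_closedBall_iff_norm] at hz
    exact hd z hz
  have hdcl : DiffContOnCl ℂ E (Metric.ball (X0 : ℂ) r) := by
    refine DifferentiableOn.diffContOnCl fun z hz => ?_
    rw [closure_ball _ hr0.ne'] at hz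
    exact (hEc z hz).differentiableWithinAt
  have hcau : ∀ a ∈ s, (∮ z in C((X0 : ℂ), r), (z - (a : ℂ))⁻¹ • E z) =
      (2 * Real.pi * Complex.I : ℂ) • E (a : ℂ) := by
    intro a ha
    refine hdcl.circleIntegral_sub_inv_smul ?_
    rw [mem_ball_iff_norm, hr]
    have := hda a ha
    linarith
  have hint : ∀ a ∈ s, CircleIntegrable (fun z => (z - (a : ℂ))⁻¹ • E z) (X0 : ℂ) r := by
    intro a ha
    refine ContinuousOn.circleIntegrable hr0.le ?_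
    refine ContinuousOn.smul (ContinuousOn.inv₀ (by fun_prop) fun z hz => sub_ne_zero.2 (hne0 z hz a ha)) ?_
    intro z hz
    exact (hEc z (Metric.sphere_subset_closedBall hz)).continuousAt.continuousWithinAt
  have hmain : (∮ z in C((X0 : ℂ), r), (∏ a ∈ s, (z - (a : ℂ))⁻¹) * E z) =
      (2 * Real.pi * Complex.I : ℂ) * DD s (fun a => E (a : ℂ)) := by
    have h1 : (∮ z in C((X0 : ℂ), r), (∏ a ∈ s, (z - (a : ℂ))⁻¹) * E z) =
        ∮ z in C((X0 : ℂ), r), ∑ a ∈ s, (∏ b ∈ s.erase a, ((a : ℂ) - (b : ℂ))⁻¹) * ((z - (a : ℂ))⁻¹ • E z) := by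
      refine circleIntegral.integral_congr hr0.le fun z hz => ?_
      rw [ddc_pf hne z (hne0 z hz), sum_mul]
      refine sum_congr rfl fun a _ => ?_
      rw [smul_eq_mul]
      ring
    rw [h1]
    have h2 : ∀ t ⊆ s, (∮ z in C((X0 : ℂ), r), ∑ a ∈ t, (∏ b ∈ s.erase a, ((a : ℂ) - (b : ℂ))⁻¹) * ((z - (a : ℂ))⁻¹ • E z)) =
        ∑ a ∈ t, (∏ b ∈ s.erase a, ((a : ℂ) - (b : ℂ))⁻¹) * ((2 * Real.pi * Complex.I : ℂ) • E (a : ℂ)) ∧
        CircleIntegrable (fun z => ∑ a ∈ t, (∏ b ∈ s.erase a, ((a : ℂ) - (b : ℂ))⁻¹) * ((z - (a : ℂ))⁻¹ • E z)) (X0 : ℂ) r := by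
      intro t
      induction t using Finset.induction_on with
      | empty =>
        intro _
        simp only [sum_empty]
        refine ⟨by simp [circleIntegral], circleIntegrable_const _ _ _⟩
      | insert a t hat ih =>
        intro hts
        obtain ⟨ih1, ih2⟩ := ih (fun x hx => hts (mem_insert_of_mem hx))
        have has := hts (mem_insert_self a t)
        have hi : CircleIntegrable (fun z => (∏ b ∈ s.erase a, ((a : ℂ) - (b : ℂ))⁻¹) * ((z - (a : ℂ))⁻¹ • E z)) (X0 : ℂ) r := by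
          have := (hint a has).const_smul (a := ∏ b ∈ s.erase a, ((a : ℂ) - (b : ℂ))⁻¹)
          exact this
        simp only [sum_insert hat]
        refine ⟨?_, hi.add ih2⟩
        rw [circleIntegral.integral_add hi ih2, ih1, circleIntegral.integral_const_mul, hcau a has]
    rw [(h2 s subset_rfl).1]
    unfold DD
    rw [mul_sum]
    refine sum_congr rfl fun a _ => ?_
    rw [smul_eq_mul]
    ring
  have hbd : ∀ z ∈ Metric.sphere (X0 : ℂ) r, ‖(∏ a ∈ s, (z - (a : ℂ))⁻¹) * E z‖ ≤ K * (4 / X0) ^ s.card := by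
    intro z hz
    rw [norm_mul, norm_prod]
    have h1 : ∏ a ∈ s, ‖(z - (a : ℂ))⁻¹‖ ≤ ∏ _a ∈ s, (4 / X0 : ℝ) := by
      refine prod_le_prod (fun a _ => norm_nonneg _) fun a ha => ?_
      rw [norm_inv]
      have h2 := hcirc z hz a ha
      rw [inv_le_comm₀ (by linarith) (by positivity)]
      rw [inv_div]
      exact h2
    rw [prod_const] at h1
    have h3 := hK z (by
      have := mem_sphere_iff_norm.1 hz
      rw [this])
    calc (∏ a ∈ s, ‖(z - (a : ℂ))⁻¹‖) * ‖E z‖ ≤ (4 / X0) ^ s.card * K :=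
          mul_le_mul h1 h3 (norm_nonneg _) (by positivity)
      _ = K * (4 / X0) ^ s.card := by ring
  have hfin := circleIntegral.norm_integral_le_of_norm_le_const hr0.le hbd
  rw [hmain, norm_mul] at hfin
  have h2pi : ‖(2 * Real.pi * Complex.I : ℂ)‖ = 2 * Real.pi := by
    rw [norm_mul, norm_mul, Complex.norm_I, Complex.norm_real, Real.norm_eq_abs, abs_of_pos Real.pi_pos]
    simp
  rw [h2pi] at hfin
  have hpi := Real.pi_pos
  have h5 : 2 * Real.pi * ‖DD s (fun a => E (a : ℂ))‖ ≤ 2 * Real.pi * (r * K * (4 / X0) ^ s.card) := by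
    refine hfin.trans (le_of_eq ?_)
    ring
  exact le_of_mul_le_mul_left h5 (by positivity)

end H5CQ
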