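import Pool.Agent.H5.CQ.Defs0
import Pool.Agent.H97.FB.THA

/-!
# MP_821da1_nt, FAMILIES (helper97), chapter G: cliques -- definitions (helper5)

`thz pd m i z = z^m x_i(T)`, `T = q^(-1) z^(-1/e)` (principal branch): the roots of `f(z, Z)` as analytic functions on `|z - X0| ≤ X0 / 2`.
-/

namespace H5CQ

open Finset Polynomial Pool.Agent.H87.SA2 Pool.Agent.H52.AC

noncomputable def thz {g : ℤ[X][X]} {n : ℕ} (pd : PData g n) (m : ℕ) (i : Fin n) (z : ℂ) : ℂ :=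
  z ^ m * evz ((pd.q : ℂ)⁻¹ * z ^ (((-(1 / (pd.e : ℝ)) : ℝ)) : ℂ)) (pd.x i)

end H5CQ
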