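import Mathlib

/-!
# MP_821da1_nt, FAMILIES (helper97), chapter G: cliques -- definitions (helper5), Mathlib part

`EE θ T i z`: the coefficient of `X^i` in `∏_{l ∈ T} (X - θ_l(z))`.
`DD s c`: the divided difference of `c` at the points of `s`; `vd s`: the product of all differences.
-/

namespace H5CQ

open Finset Polynomial

noncomputable def EE {n : ℕ} (θ : Fin n → ℂ → ℂ) (T : Finset (Fin n)) (i : ℕ) (z : ℂ) : ℂ :=
  (∏ l ∈ T, (X - C (θ l z))).coeff i

def DD {K : Type} [Field K] (s : Finset ℕ) (c : ℕ → K) : K :=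
  ∑ a ∈ s, c a * ∏ b ∈ s.erase a, ((a : K) - (b : K))⁻¹

def vd (s : Finset ℕ) : ℤ := ∏ a ∈ s, ∏ b ∈ s.erase a, ((a : ℤ) - (b : ℤ))

end H5CQ
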