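import Pool.Agent.H5.CQ.Defs0

/-!
# [H5 CQ ITP] vanishing divided differences: interpolation by one polynomial

Choose `t0 ⊆ Q` with `s` elements, `P = Lagrange.interpolate t0 (fun a => (a : K)) c` (degree `< s`, so `natDegree ≤ s`). For `a ∈ Q \ t0` put `t = insert a t0`: `DD t c = 0`.
`DD t P = 0` as well (a polynomial of degree `< s` has vanishing divided differences at `s + 1` points: `Lagrange.interpolate` of `P` at the nodes `t` is `P` and its coefficient of `X^s` is `DD t P`;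
or prove directly: `DD t (P) = 0` for `deg P < card t - 1`; Mathlib may have `Lagrange.sum_nodalWeight...`/`Polynomial.sum ...`; alternatively avoid it: the Lagrange interpolation formula at `t0` gives
`P(a) = ∑_{b ∈ t0} c b ∏_{b' ≠ b} (a - b')/(b - b')`, and `DD t c = c a ∏_{b ∈ t0} (a - b)⁻¹ - ∑_{b ∈ t0} c b (a - b)⁻¹ ∏_{b' ∈ t0, b' ≠ b} (b - b')⁻¹`
`= (c a - P(a)) ∏_{b ∈ t0} (a - b)⁻¹` (`Lagrange.eval_interpolate_not_at_node`)). So `P(a) = c a`.
-/

namespace H5CQ

open Finset Polynomial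

theorem interp {K : Type} [Field K] [CharZero K] (c : ℕ → K) (Q : Finset ℕ) (s : ℕ) (hc : s ≤ Q.card)
    (h : ∀ t ⊆ Q, t.card = s + 1 → DD t c = 0) :
    ∃ P : K[X], P.natDegree ≤ s ∧ ∀ a ∈ Q, P.eval (a : K) = c a := by
  classical
  obtain ⟨t0, ht0, hcard⟩ := Finset.exists_subset_card_eq hc
  have hinj : Set.InjOn (fun a : ℕ => (a : K)) (t0 : Set ℕ) :=
    fun a _ b _ hab => Nat.cast_injective hab
  obtain ⟨P, hP⟩ : ∃ P, P = Lagrange.interpolate t0 (fun a : ℕ => (a : K)) c := ⟨_, rfl⟩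
  have hdeg : P.degree < s := by
    rw [hP, ← hcard]
    exact Lagrange.degree_interpolate_lt c hinj
  refine ⟨P, ?_, ?_⟩
  · exact Polynomial.natDegree_le_iff_degree_le.mpr hdeg.le
  intro a ha
  by_cases hat : a ∈ t0
  · rw [hP]
    exact Lagrange.eval_interpolate_at_node c hinj hat
  · have hne : ∀ i ∈ t0, (a : K) ≠ (i : K) := fun i hi hai => hat (by
      have := Nat.cast_injective hai
      rwa [this])
    have hD := h (insert a t0) (Finset.insert_subset ha ht0)
      (by rw [Finset.card_insert_of_notMem hat, hcard])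
    have hPa : P.eval (a : K) = (∏ b ∈ t0, ((a : K) - b)) *
        ∑ b ∈ t0, (∏ b' ∈ t0.erase b, ((b : K) - b')⁻¹) * ((a : K) - b)⁻¹ * c b := by
      rw [hP, Lagrange.eval_interpolate_not_at_node c hne, Lagrange.eval_nodal]
      rfl
    unfold DD at hD
    rw [Finset.sum_insert hat, Finset.erase_insert hat] at hD
    have hsum : ∑ x ∈ t0, c x * ∏ b ∈ (insert a t0).erase x, ((x : K) - (b : K))⁻¹ =
        - ∑ b ∈ t0, (∏ b' ∈ t0.erase b, ((b : K) - b')⁻¹) * ((a : K) - b)⁻¹ * c b := by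
      rw [← Finset.sum_neg_distrib]
      refine Finset.sum_congr rfl fun b hb => ?_
      have hab : a ≠ b := fun e => hat (e ▸ hb)
      rw [Finset.erase_insert_of_ne hab, Finset.prod_insert (by simp [hat])]
      have h1 : ((b : K) - a)⁻¹ = -((a : K) - b)⁻¹ := by
        rw [← neg_sub, inv_neg]
      rw [h1]
      ring
    rw [hsum] at hD
    have hprod : (∏ b ∈ t0, ((a : K) - b)) ≠ 0 :=
      Finset.prod_ne_zero_iff.mpr fun b hb => sub_ne_zero.mpr (hne b hb)
    have h2 : (∏ b ∈ t0, ((a : K) - b)⁻¹) = (∏ b ∈ t0, ((a : K) - b))⁻¹ := by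
      rw [Finset.prod_inv_distrib]
    rw [h2] at hD
    have h3 : ∑ b ∈ t0, (∏ b' ∈ t0.erase b, ((b : K) - b')⁻¹) * ((a : K) - b)⁻¹ * c b =
        c a * (∏ b ∈ t0, ((a : K) - b))⁻¹ := by
      linear_combination -hD
    rw [hPa, h3]
    field_simp

end H5CQ
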