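import Pool.Agent.H5.CQ.Defs0

/-!
# [H5 CQ POL] the two interpolating polynomials factor `f`

Put `GG = X^κ + ∑_{i<κ} C (P_i) X^i`, `HH = X^κ' + ∑_{i<κ'} C (Q_i) X^i` in `k[x][X]`, `P_i, Q_i` interpolating the coefficients on `Q`. For `a ∈ Q`: `GG.map (evalRingHom a) = G a`,
`HH.map (evalRingHom a) = H a` (both sides monic of degree `κ`, the same coefficients), so `(GG * HH - f.map (mapRingHom ℤ → k)).map (evalRingHom a) = 0` (`fa f a = f.map (evalRingHom a)`). Every coefficient of
`GG * HH` has `natDegree ≤ 2 s` (`natDegree_sum_le`, `coeff_mul`), those of `f` `≤ D`. If `Q.card > max D (2 s)` each coefficient of `GG * HH - f` is a polynomial with more roots (`(a : k)`, `a ∈ Q`, distinct) than its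
degree, hence `0` (`Polynomial.eq_zero_of_natDegree_lt_card_of_eval_eq_zero'`), so `f.map = GG * HH`. Map by `σ0 : k → ℂ`: `f.map (mapRingHom ℂ) = GG' * HH'`, monic of degrees `κ, κ' ≥ 1`; `Irreducible` says one is a
unit, but a monic unit is `1` (`Monic.eq_one_of_isUnit`), of degree `0`: contradiction.
-/

namespace H5CQ

open Finset Polynomial

/-- the interpolating polynomial in `k[x][X]` -/
private noncomputable def gg {k : Type} [Field k] (κ : ℕ) (P : ℕ → k[X]) : k[X][X] :=
  X ^ κ + ∑ i ∈ range κ, C (P i) * X ^ i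

private theorem gg_coeff {k : Type} [Field k] (κ : ℕ) (P : ℕ → k[X]) (i : ℕ) :
    (gg κ P).coeff i = if i < κ then P i else if i = κ then 1 else 0 := by
  unfold gg
  rw [coeff_add, coeff_X_pow, finsetSum_coeff]
  simp only [coeff_C_mul_X_pow]
  rw [sum_ite_eq (range κ) i]
  by_cases h : i < κ
  · rw [if_pos (mem_range.2 h), if_neg (by omega), if_pos h, zero_add]
  · rw [if_neg (fun hc => h (mem_range.1 hc)), if_neg h, add_zero]

private theorem gg_lt {k : Type} [Field k] (κ : ℕ) (P : ℕ → k[X]) :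
    (∑ i ∈ range κ, C (P i) * X ^ i : k[X][X]).degree < κ := by
  rw [degree_lt_iff_coeff_zero]
  intro j hj
  rw [finsetSum_coeff]
  refine sum_eq_zero fun i hi => ?_
  have := mem_range.1 hi
  rw [coeff_C_mul_X_pow, if_neg (by omega)]

private theorem gg_monic {k : Type} [Field k] (κ : ℕ) (P : ℕ → k[X]) : (gg κ P).Monic :=
  monic_X_pow_add (gg_lt κ P)

private theorem gg_deg {k : Type} [Field k] (κ : ℕ) (P : ℕ → k[X]) : (gg κ P).natDegree = κ := by
  have h : (gg κ P).degree = κ := by
    unfold gg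
    rw [degree_add_eq_left_of_degree_lt (by rw [degree_X_pow]; exact gg_lt κ P), degree_X_pow]
  exact natDegree_eq_of_degree_eq_some h

private theorem gg_map {k : Type} [Field k] (κ : ℕ) (P : ℕ → k[X]) (x : k) (G : k[X])
    (hG : G.Monic) (hd : G.natDegree = κ) (h : ∀ i, (P i).eval x = G.coeff i) :
    (gg κ P).map (evalRingHom x) = G := by
  ext i
  rw [coeff_map, gg_coeff]
  by_cases h1 : i < κ
  · rw [if_pos h1]
    exact h i
  · rw [if_neg h1]
    by_cases h2 : i = κ
    · rw [if_pos h2, map_one, h2, ← hd, hG.coeff_natDegree]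
    · rw [if_neg h2, map_zero, coeff_eq_zero_of_natDegree_lt (by omega)]

private theorem gg_cdeg {k : Type} [Field k] (κ s : ℕ) (P : ℕ → k[X]) (h : ∀ i, (P i).natDegree ≤ s)
    (i : ℕ) : ((gg κ P).coeff i).natDegree ≤ s := by
  rw [gg_coeff]
  split_ifs
  · exact h i
  · simp
  · simp

theorem pol {k : Type} [Field k] [CharZero k] (σ0 : k →+* ℂ) (f : ℤ[X][X])
    (hirr : Irreducible (f.map (mapRingHom (Int.castRingHom ℂ)))) (D s κ κ' : ℕ)
    (hdeg : ∀ i, (f.coeff i).natDegree ≤ D) (hκ : 1 ≤ κ) (hκ' : 1 ≤ κ') (Q : Finset ℕ) (G H : ℕ → k[X])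
    (hG : ∀ a ∈ Q, (G a).Monic ∧ (G a).natDegree = κ) (hH : ∀ a ∈ Q, (H a).Monic ∧ (H a).natDegree = κ')
    (hGH : ∀ a ∈ Q, G a * H a = (f.map (evalRingHom (a : ℤ))).map (algebraMap ℤ k))
    (hP : ∀ i, ∃ P : k[X], P.natDegree ≤ s ∧ ∀ a ∈ Q, P.eval (a : k) = (G a).coeff i)
    (hR : ∀ i, ∃ P : k[X], P.natDegree ≤ s ∧ ∀ a ∈ Q, P.eval (a : k) = (H a).coeff i) :
    Q.card ≤ max D (2 * s) := by
  classical
  by_contra hcon
  push Not at hcon
  choose P hP1 hP2 using hP
  choose R hR1 hR2 using hR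
  set fk : k[X][X] := f.map (mapRingHom (Int.castRingHom k)) with hfk
  have hfac : gg κ P * gg κ' R = fk := by
    rw [← sub_eq_zero]
    ext1 i
    rw [coeff_zero]
    have hd : ((gg κ P * gg κ' R - fk).coeff i).natDegree ≤ max D (2 * s) := by
      rw [coeff_sub]
      refine (natDegree_sub_le _ _).trans (max_le ?_ ?_)
      · rw [coeff_mul]
        refine natDegree_sum_le_of_forall_le _ _ fun x _ => ?_
        refine natDegree_mul_le.trans ?_
        have h1 := gg_cdeg κ s P hP1 x.1
        have h2 := gg_cdeg κ' s R hR1 x.2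
        have h3 := le_max_right D (2 * s)
        omega
      · rw [hfk, coeff_map, coe_mapRingHom]
        exact (natDegree_map_le).trans ((hdeg i).trans (le_max_left _ _))
    refine eq_zero_of_natDegree_lt_card_of_eval_eq_zero' _ (Q.image (fun a : ℕ => (a : k)))
      (fun x hx => ?_) ?_
    · obtain ⟨a, ha, rfl⟩ := mem_image.1 hx
      have h1 : (gg κ P * gg κ' R - fk).map (evalRingHom (a : k)) = 0 := by
        rw [Polynomial.map_sub, Polynomial.map_mul, gg_map κ P (a : k) (G a) (hG a ha).1 (hG a ha).2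
          (fun i => hP2 i a ha), gg_map κ' R (a : k) (H a) (hH a ha).1 (hH a ha).2
          (fun i => hR2 i a ha), hGH a ha, hfk, Polynomial.map_map, Polynomial.map_map, sub_eq_zero]
        congr 1
        refine Polynomial.ringHom_ext (fun z => ?_) ?_
        · simp
        · simp
      have h2 := congrArg (fun p => p.coeff i) h1
      simp only [coeff_map, coeff_zero, coe_evalRingHom] at h2
      exact h2
    · rw [card_image_of_injective _ Nat.cast_injective]
      exact lt_of_le_of_lt hd hcon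
  have h1 : f.map (mapRingHom (Int.castRingHom ℂ)) =
      (gg κ P).map (mapRingHom σ0) * (gg κ' R).map (mapRingHom σ0) := by
    rw [← Polynomial.map_mul, hfac, hfk, Polynomial.map_map]
    congr 1
    refine Polynomial.ringHom_ext (fun z => ?_) ?_
    · simp
    · simp
  have hm1 := (gg_monic κ P).map (mapRingHom σ0)
  have hm2 := (gg_monic κ' R).map (mapRingHom σ0)
  rcases hirr.isUnit_or_isUnit h1 with h | h
  · have h2 := hm1.eq_one_of_isUnit h
    have h3 := (gg_monic κ P).natDegree_map (mapRingHom σ0)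
    rw [h2, natDegree_one, gg_deg] at h3
    omega
  · have h2 := hm2.eq_one_of_isUnit h
    have h3 := (gg_monic κ' R).natDegree_map (mapRingHom σ0)
    rw [h2, natDegree_one, gg_deg] at h3
    omega

end H5CQ
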