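import Pool.Agent.H5.CQ.Defs0

/-!
# [H5 CQ RED] reducible monic polynomials over a number field

* `red_pair`: `g.map` is monic of degree `≥ 1`, not a unit, not irreducible: a factorisation into two non units of the field's polynomial ring, both of positive degree; normalise the leading
  coefficients (`Polynomial.Monic.irreducible_iff_natDegree'`/`Monic.not_irreducible_iff_exists_add_mul_eq_coeff` or by hand). Integrality of the coefficients:
  `integralClosure.mem_lifts_of_monic_of_dvd_map`.
* `split_pair`: `G * H = ∏_i (X - C (θ i))` over `ℂ` (or induction on `n`: `X - θ_0` divides `G` or `H`). Let `θ : Fin n → ℂ`; by induction over the finset `univ` (statement for a general finset `U` in place of `univ`: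
  `G * H = ∏_{i ∈ U}` gives `T ⊆ U` with `G = ∏_T`, `H = ∏_{U \ T}`): `X - C (θ a)` is prime, divides `G * H`, cancel it.
-/

namespace H5CQ

open Finset Polynomial

private theorem red_int {k : Type} [Field k] [NumberField k] (g : ℤ[X]) (hg : g.Monic)
    (G : k[X]) (hG : G.Monic) (hd : G ∣ g.map (algebraMap ℤ k)) (i : ℕ) :
    IsIntegral ℤ (G.coeff i) := by
  have h1 := integralClosure.mem_lifts_of_monic_of_dvd_map k hg hG hd
  rw [lifts_iff_coeff_lifts] at h1
  obtain ⟨x, hx⟩ := h1 i
  rw [← hx]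
  exact x.2

theorem red_pair {k : Type} [Field k] [NumberField k] (g : ℤ[X]) (hg : g.Monic) (hn : 1 ≤ g.natDegree)
    (h : ¬ Irreducible (g.map (algebraMap ℤ k))) :
    ∃ G H : k[X], G.Monic ∧ H.Monic ∧ 1 ≤ G.natDegree ∧ 1 ≤ H.natDegree ∧ G * H = g.map (algebraMap ℤ k) ∧
      (∀ i, IsIntegral ℤ (G.coeff i)) ∧ ∀ i, IsIntegral ℤ (H.coeff i) := by
  have hm : (g.map (algebraMap ℤ k)).Monic := hg.map _
  have hd : (g.map (algebraMap ℤ k)).natDegree = g.natDegree := hg.natDegree_map _
  have h1 : g.map (algebraMap ℤ k) ≠ 1 := by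
    intro h1
    rw [h1, natDegree_one] at hd
    omega
  rw [hm.irreducible_iff_natDegree'] at h
  push Not at h
  obtain ⟨G, H, hG, hH, hGH, hdeg⟩ := h h1
  rw [Finset.mem_Ioc, hd] at hdeg
  have h2 : G.natDegree + H.natDegree = g.natDegree := by
    rw [← hd, ← hGH, hG.natDegree_mul hH]
  refine ⟨G, H, hG, hH, by omega, by omega, hGH, fun i => ?_, fun i => ?_⟩
  · exact red_int g hg G hG (Dvd.intro _ hGH) i
  · exact red_int g hg H hH (Dvd.intro_left _ hGH) i

private theorem split_gen {ι : Type} [DecidableEq ι] (θ : ι → ℂ) (U : Finset ι) :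
    ∀ G H : ℂ[X], G.Monic → H.Monic → G * H = ∏ i ∈ U, (X - C (θ i)) →
    ∃ T ⊆ U, G = ∏ l ∈ T, (X - C (θ l)) ∧ H = ∏ l ∈ U \ T, (X - C (θ l)) := by
  induction U using Finset.induction_on with
  | empty =>
    intro G H hG hH h
    rw [prod_empty] at h
    have h1 : G = 1 := hG.eq_one_of_isUnit (IsUnit.of_mul_eq_one H h)
    have h2 : H = 1 := by rwa [h1, one_mul] at h
    exact ⟨∅, Finset.Subset.refl _, by simpa using h1, by simpa using h2⟩
  | insert a U ha ih =>
    intro G H hG hH h
    rw [prod_insert ha] at h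
    have hp : Prime (X - C (θ a)) := prime_X_sub_C (θ a)
    have hd : (X - C (θ a)) ∣ G * H := Dvd.intro _ h.symm
    have hne : (X - C (θ a)) ≠ 0 := hp.ne_zero
    rcases hp.dvd_or_dvd hd with h1 | h1
    · obtain ⟨G', rfl⟩ := h1
      have hG' : G'.Monic := (monic_X_sub_C (θ a)).of_mul_monic_left hG
      have h2 : G' * H = ∏ i ∈ U, (X - C (θ i)) := by
        rw [mul_assoc] at h
        exact mul_left_cancel₀ hne h
      obtain ⟨T, hT, h3, h4⟩ := ih G' H hG' hH h2
      have haT : a ∉ T := fun h => ha (hT h)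
      refine ⟨insert a T, insert_subset_insert a hT, ?_, ?_⟩
      · rw [prod_insert haT, ← h3]
      · rw [h4]
        congr 1
        ext x
        simp only [mem_sdiff, mem_insert]
        constructor
        · rintro ⟨h5, h6⟩
          refine ⟨Or.inr h5, ?_⟩
          rintro (rfl | h7)
          · exact ha h5
          · exact h6 h7
        · rintro ⟨h5 | h5, h6⟩
          · exact absurd (Or.inl h5) h6
          · exact ⟨h5, fun h7 => h6 (Or.inr h7)⟩
    · obtain ⟨H', rfl⟩ := h1
      have hH' : H'.Monic := (monic_X_sub_C (θ a)).of_mul_monic_left hH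
      have h2 : G * H' = ∏ i ∈ U, (X - C (θ i)) := by
        rw [mul_left_comm] at h
        exact mul_left_cancel₀ hne h
      obtain ⟨T, hT, h3, h4⟩ := ih G H' hG hH' h2
      have haT : a ∉ T := fun h => ha (hT h)
      refine ⟨T, hT.trans (subset_insert a U), h3, ?_⟩
      rw [insert_sdiff_of_notMem _ haT, prod_insert (fun h => ha (mem_sdiff.1 h).1), ← h4]

theorem split_pair {n : ℕ} (θ : Fin n → ℂ) (G H : ℂ[X]) (hG : G.Monic) (hH : H.Monic)
    (h : G * H = ∏ i, (X - C (θ i))) :
    ∃ T : Finset (Fin n), G = ∏ l ∈ T, (X - C (θ l)) ∧ H = ∏ l ∈ Tᶜ, (X - C (θ l)) := by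
  obtain ⟨T, -, h1, h2⟩ := split_gen θ univ G H hG hH h
  exact ⟨T, h1, by rw [compl_eq_univ_sdiff]; exact h2⟩

end H5CQ
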