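import Pool.Agent.H5.CQ.Key
import Pool.Agent.H5.CQ.Itp
import Pool.Agent.H5.CQ.Red
import Pool.Agent.H5.CQ.Pol

/-!
# [H5 CQ FIN] assembly

`s = m n + 1`, `M = max (m n) (2 s)`, `J0 = M * (2^n)^n`, `C = max (C of key) (C of thA_rts)`. `fa f a` is monic of degree `n ≥ 2`. For `a ∈ S` take `G a, H a` from `red_pair`; for `σ : k →+* ℂ`:
`σ(G a) * σ(H a) = (fa f a).map = ∏ (X - C (thA .. a l))` (`thA_rts`, `B^C ≤ X0 ≤ a`), `split_pair`: `T a σ`. The number of functions `(k →+* ℂ) → Finset (Fin n)` is `(2^n)^(finrank) ≤ (2^n)^n`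
(`NumberField.Embeddings.card`). If `S.card > J0`, pigeonhole (`Finset.exists_lt_card_fiber_of_mul_lt_card_of_maps_to`): `Q ⊆ S` with `Q.card > M` and `T a` the same `T` for all `a ∈ Q`. The degrees: `natDegree (G a) = (T σ0).card =: κ` for one `σ0`,
`natDegree (H a) = ((T σ0)ᶜ).card =: κ'`. For every `i` and `t ⊆ Q` with `m n + 2` elements `key` (with `thz_nat`: `thz (a) = thA a`) gives `DD t (fun a => (G a).coeff i) = 0`, and with `(T σ)ᶜ` the same for `H`.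
`interp` (`s + 1 = m n + 2`, `s ≤ M < Q.card`), `pol` with `D = m n`: `Q.card ≤ M`: contradiction.
-/

namespace H5CQ

open Finset Polynomial Pool.Agent.H87.SA2 Pool.Agent.H52.AC Pool.Agent.H97.FB

theorem clqD (n m D : ℕ) : ∃ J0 C : ℕ, ∀ (B : ℕ) (f : ℤ[X][X]) (_ : FamB n m B f) (X0 : ℕ),
    B ^ C ≤ X0 → ∀ (k : Type) [Field k] [NumberField k], Module.finrank ℚ k ≤ D →
    ∀ S : Finset ℕ, (∀ a ∈ S, X0 ≤ a ∧ (a - X0) ^ C ≤ X0) →
      (∀ a ∈ S, ¬ Irreducible ((fa f a).map (algebraMap ℤ k))) → S.card ≤ J0 := by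
  classical
  obtain ⟨C1, hC1, hkey⟩ := key n m
  obtain ⟨C2, hthA⟩ := thA_rts n m
  refine ⟨max (m * n) (2 * (m * n + 1)) * (2 ^ n) ^ D, max C1 C2, ?_⟩
  intro B f Fm X0 hX0 k _ _ hk S hS hirr
  have hB : 1 ≤ B := by
    have := Fm.B2
    omega
  have hX1 : B ^ C1 ≤ X0 := (Nat.pow_le_pow_right hB (le_max_left _ _)).trans hX0
  have hX2 : B ^ C2 ≤ X0 := (Nat.pow_le_pow_right hB (le_max_right _ _)).trans hX0
  have hX4 : B ^ (4 * n.factorial + 4) ≤ X0 := (Nat.pow_le_pow_right hB hC1).trans hX1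
  have hS1 : ∀ a ∈ S, X0 ≤ a ∧ (a - X0) ^ C1 ≤ X0 := by
    intro a ha
    refine ⟨(hS a ha).1, ?_⟩
    rcases Nat.eq_zero_or_pos (a - X0) with h0 | h0
    · rw [h0, zero_pow (by omega)]
      exact Nat.zero_le _
    · exact (Nat.pow_le_pow_right h0 (le_max_left _ _)).trans (hS a ha).2
  have hfm : ∀ a, (fa f a).Monic := fun a => Fm.monic.map _
  have hfd : ∀ a, (fa f a).natDegree = n := by
    intro a
    unfold fa
    rw [Fm.monic.natDegree_map, Fm.deg]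
  have hred : ∀ a ∈ S, ∃ G H : k[X], G.Monic ∧ H.Monic ∧ 1 ≤ G.natDegree ∧ 1 ≤ H.natDegree ∧
      G * H = (fa f a).map (algebraMap ℤ k) ∧
      (∀ i, IsIntegral ℤ (G.coeff i)) ∧ ∀ i, IsIntegral ℤ (H.coeff i) := by
    intro a ha
    refine red_pair (fa f a) (hfm a) ?_ (hirr a ha)
    rw [hfd a]
    have := Fm.n2
    omega
  choose! G H hGm hHm hG1 hH1 hGH hGi hHi using hred
  have hspl : ∀ a ∈ S, ∀ σ : k →+* ℂ, ∃ T : Finset (Fin n),
      (G a).map σ = ∏ l ∈ T, (X - C (thA Fm.pd m a l)) ∧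
      (H a).map σ = ∏ l ∈ Tᶜ, (X - C (thA Fm.pd m a l)) := by
    intro a ha σ
    apply split_pair (thA Fm.pd m a) _ _ ((hGm a ha).map σ) ((hHm a ha).map σ)
    rw [← Polynomial.map_mul, hGH a ha, Polynomial.map_map]
    rw [← (hthA B f Fm a (hX2.trans (hS a ha).1)).1]
    congr 1
    exact RingHom.ext_int _ _
  choose! T hTG hTH using hspl
  by_contra hcon
  rw [not_le] at hcon
  have hcard : (univ : Finset ((k →+* ℂ) → Finset (Fin n))).card ≤ (2 ^ n) ^ D := by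
    rw [Finset.card_univ, Fintype.card_fun, Fintype.card_finset, Fintype.card_fin,
      NumberField.Embeddings.card]
    exact Nat.pow_le_pow_right (by positivity) hk
  obtain ⟨T0, -, hT0⟩ := Finset.exists_lt_card_fiber_of_mul_lt_card_of_maps_to
    (s := S) (t := (univ : Finset ((k →+* ℂ) → Finset (Fin n)))) (f := T)
    (n := max (m * n) (2 * (m * n + 1))) (fun a _ => Finset.mem_univ _)
    (by
      refine lt_of_le_of_lt ?_ hcon
      rw [mul_comm]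
      exact Nat.mul_le_mul_left _ hcard)
  set Q : Finset ℕ := {x ∈ S | T x = T0} with hQ
  have hQS : Q ⊆ S := Finset.filter_subset _ _
  have hQT : ∀ a ∈ Q, T a = T0 := fun a ha => (Finset.mem_filter.1 ha).2
  have hQc : m * n + 1 ≤ Q.card := by
    have := le_max_right (m * n) (2 * (m * n + 1))
    omega
  obtain ⟨σ0⟩ : Nonempty (k →+* ℂ) := inferInstance
  have hdegT : ∀ (U : Finset (Fin n)) (a : ℕ),
      (∏ l ∈ U, (X - C (thA Fm.pd m a l))).natDegree = U.card := by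
    intro U a
    exact natDegree_finset_prod_X_sub_C_eq_card U _
  have hGdeg : ∀ a ∈ Q, (G a).natDegree = (T0 σ0).card := by
    intro a ha
    rw [← (hGm a (hQS ha)).natDegree_map σ0, hTG a (hQS ha) σ0, hdegT, hQT a ha]
  have hHdeg : ∀ a ∈ Q, (H a).natDegree = ((T0 σ0)ᶜ).card := by
    intro a ha
    rw [← (hHm a (hQS ha)).natDegree_map σ0, hTH a (hQS ha) σ0, hdegT, hQT a ha]
  have hEG : ∀ a ∈ Q, ∀ (σ : k →+* ℂ) (i : ℕ),
      σ ((G a).coeff i) = EE (fun l z => thz Fm.pd m l z) (T0 σ) i (a : ℂ) := by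
    intro a ha σ i
    rw [← coeff_map, hTG a (hQS ha) σ, hQT a ha]
    unfold EE
    congr 1
    refine Finset.prod_congr rfl fun l _ => ?_
    beta_reduce
    rw [thz_nat Fm X0 hX4 l a (hS a (hQS ha)).1]
  have hEH : ∀ a ∈ Q, ∀ (σ : k →+* ℂ) (i : ℕ),
      σ ((H a).coeff i) = EE (fun l z => thz Fm.pd m l z) ((T0 σ)ᶜ) i (a : ℂ) := by
    intro a ha σ i
    rw [← coeff_map, hTH a (hQS ha) σ, hQT a ha]
    unfold EE
    congr 1
    refine Finset.prod_congr rfl fun l _ => ?_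
    beta_reduce
    rw [thz_nat Fm X0 hX4 l a (hS a (hQS ha)).1]
  have hPG : ∀ i, ∃ P : k[X], P.natDegree ≤ m * n + 1 ∧ ∀ a ∈ Q, P.eval (a : k) = (G a).coeff i := by
    intro i
    refine interp (fun a => (G a).coeff i) Q (m * n + 1) hQc ?_
    intro t ht htc
    exact hkey B f Fm X0 hX1 k t htc (fun a ha => hS1 a (hQS (ht ha))) _ T0 i
      (fun a ha => hGi a (hQS (ht ha)) i) (fun σ a ha => hEG a (ht ha) σ i)
  have hPH : ∀ i, ∃ P : k[X], P.natDegree ≤ m * n + 1 ∧ ∀ a ∈ Q, P.eval (a : k) = (H a).coeff i := by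
    intro i
    refine interp (fun a => (H a).coeff i) Q (m * n + 1) hQc ?_
    intro t ht htc
    exact hkey B f Fm X0 hX1 k t htc (fun a ha => hS1 a (hQS (ht ha))) _ (fun σ => (T0 σ)ᶜ) i
      (fun a ha => hHi a (hQS (ht ha)) i) (fun σ a ha => hEH a (ht ha) σ i)
  have hQne : Q.Nonempty := by
    rw [← Finset.card_pos]
    omega
  obtain ⟨a0, ha0⟩ := hQne
  have hfin := pol σ0 f Fm.irr (m * n) (m * n + 1) (T0 σ0).card ((T0 σ0)ᶜ).card
    (fun i => (Fm.cdeg i).trans (Nat.mul_le_mul_left _ (Nat.sub_le _ _)))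
    (by rw [← hGdeg a0 ha0]; exact hG1 a0 (hQS ha0))
    (by rw [← hHdeg a0 ha0]; exact hH1 a0 (hQS ha0)) Q G H
    (fun a ha => ⟨hGm a (hQS ha), hGdeg a ha⟩) (fun a ha => ⟨hHm a (hQS ha), hHdeg a ha⟩)
    (fun a ha => hGH a (hQS ha)) hPG hPH
  omega

/-- the case of fields of degree at most `n` -/
theorem clq (n m : ℕ) : ∃ J0 C : ℕ, ∀ (B : ℕ) (f : ℤ[X][X]) (_ : FamB n m B f) (X0 : ℕ),
    B ^ C ≤ X0 → ∀ (k : Type) [Field k] [NumberField k], Module.finrank ℚ k ≤ n →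
    ∀ S : Finset ℕ, (∀ a ∈ S, X0 ≤ a ∧ (a - X0) ^ C ≤ X0) →
      (∀ a ∈ S, ¬ Irreducible ((fa f a).map (algebraMap ℤ k))) → S.card ≤ J0 :=
  clqD n m n

end H5CQ
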