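import Pool.Agent.H5.CQ.Defs0

/-!
# [H5 CQ NRM] a small algebraic integer is zero; multiplying a divided difference by the differences

* `int_zero`: `N(α) = ∏_σ σ α` (`Algebra.norm_eq_prod_embeddings` over `ℚ` with `ℂ`) is a rational integer (`Algebra.isIntegral_norm`, `IsIntegrallyClosed`), of absolute value `< 1` (at least one
  embedding: `finrank > 0`), so `0`, so `α = 0` (`Algebra.norm_eq_zero_iff`).
* `vd_int`: `vd s * ∏_{b ≠ a} (a - b)⁻¹` is an integer for each `a ∈ s` (the factor of `a` cancels), so `vd s * DD s c` is a sum of integers times the integral `c a`.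
* `vd_bd`: each of the `card * (card - 1)` factors has absolute value `≤ W`.
* `vd_ne`: all factors are nonzero.
-/

namespace H5CQ

open Finset Polynomial

theorem int_zero {k : Type} [Field k] [NumberField k] (α : k) (hi : IsIntegral ℤ α) (h : ∀ σ : k →+* ℂ, ‖σ α‖ < 1) :
    α = 0 := by
  classical
  have h1 : IsIntegral ℤ (Algebra.norm ℚ α) := Algebra.isIntegral_norm ℚ hi
  obtain ⟨n, hn⟩ := IsIntegrallyClosed.isIntegral_iff.1 h1
  have h2 : ((Algebra.norm ℚ α : ℚ) : ℂ) = ∏ σ : k →ₐ[ℚ] ℂ, σ α := by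
    have := Algebra.norm_eq_prod_embeddings ℚ ℂ α
    rw [← this]
    rfl
  have h3 : ‖∏ σ : k →ₐ[ℚ] ℂ, σ α‖ < 1 := by
    rw [norm_prod]
    have hne : (Finset.univ : Finset (k →ₐ[ℚ] ℂ)).Nonempty := by
      rw [← Finset.card_pos, Finset.card_univ, AlgHom.card]
      exact Module.finrank_pos
    obtain ⟨σ0, hσ0⟩ := hne
    rw [← Finset.mul_prod_erase _ _ hσ0]
    have h4 : ∏ σ ∈ Finset.univ.erase σ0, ‖(σ : k →ₐ[ℚ] ℂ) α‖ ≤ 1 :=
      Finset.prod_le_one (fun _ _ => norm_nonneg _) fun σ _ => (h σ.toRingHom).le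
    calc ‖σ0 α‖ * ∏ σ ∈ Finset.univ.erase σ0, ‖(σ : k →ₐ[ℚ] ℂ) α‖ ≤ ‖σ0 α‖ * 1 :=
          mul_le_mul_of_nonneg_left h4 (norm_nonneg _)
      _ < 1 := by
        rw [mul_one]
        exact h σ0.toRingHom
  have h5 : |(n : ℝ)| < 1 := by
    rw [← h2, ← hn] at h3
    have h6 : ‖(((algebraMap ℤ ℚ) n : ℚ) : ℂ)‖ = |(n : ℝ)| := by
      have : (((algebraMap ℤ ℚ) n : ℚ) : ℂ) = ((n : ℝ) : ℂ) := by
        push_cast
        simp
      rw [this, Complex.norm_real, Real.norm_eq_abs]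
    rwa [h6] at h3
  have h7 : n = 0 := by
    have h8 : |n| < 1 := by exact_mod_cast h5
    exact Int.abs_lt_one_iff.1 h8
  rw [h7, map_zero] at hn
  exact Algebra.norm_eq_zero_iff.1 hn.symm

theorem vd_int {k : Type} [Field k] [CharZero k] (s : Finset ℕ) (c : ℕ → k) (hi : ∀ a ∈ s, IsIntegral ℤ (c a)) :
    IsIntegral ℤ ((vd s : k) * DD s c) := by
  have h1 : ∀ a ∈ s, (vd s : k) * (c a * ∏ b ∈ s.erase a, ((a : k) - (b : k))⁻¹) =
      ((∏ a' ∈ s.erase a, ∏ b ∈ s.erase a', ((a' : ℤ) - (b : ℤ)) : ℤ) : k) * c a := by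
    intro a ha
    unfold vd
    rw [← Finset.mul_prod_erase s _ ha]
    push_cast
    have h2 : (∏ b ∈ s.erase a, ((a : k) - (b : k))) * ∏ b ∈ s.erase a, ((a : k) - (b : k))⁻¹ = 1 := by
      rw [← Finset.prod_mul_distrib]
      refine Finset.prod_eq_one fun b hb => mul_inv_cancel₀ ?_
      rw [sub_ne_zero]
      have := Finset.ne_of_mem_erase hb
      exact_mod_cast this.symm
    linear_combination (c a * ∏ a' ∈ s.erase a, ∏ b ∈ s.erase a', ((a' : k) - (b : k))) * h2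
  unfold DD
  rw [Finset.mul_sum, Finset.sum_congr rfl h1]
  refine IsIntegral.sum _ fun a ha => ?_
  exact (isIntegral_algebraMap (R := ℤ) (A := k) (x := ∏ a' ∈ s.erase a, ∏ b ∈ s.erase a', ((a' : ℤ) - (b : ℤ)))).mul (hi a ha)

theorem vd_bd (s : Finset ℕ) (X0 W : ℕ) (hs : ∀ a ∈ s, X0 ≤ a ∧ a - X0 ≤ W) :
    |(vd s : ℝ)| ≤ (W : ℝ) ^ (s.card * (s.card - 1)) := by
  unfold vd
  push_cast
  rw [Finset.abs_prod]
  have h1 : ∀ a ∈ s, |∏ b ∈ s.erase a, ((a : ℝ) - (b : ℝ))| ≤ (W : ℝ) ^ (s.card - 1) := by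
    intro a ha
    rw [Finset.abs_prod, ← Finset.card_erase_of_mem ha]
    refine (Finset.prod_le_prod (fun _ _ => abs_nonneg _) fun b hb => ?_).trans_eq (Finset.prod_const _)
    have h2 := hs a ha
    have h3 := hs b (Finset.mem_of_mem_erase hb)
    rw [abs_le]
    have h4 : (X0 : ℝ) ≤ a := by exact_mod_cast h2.1
    have h5 : (a : ℝ) ≤ X0 + W := by
      have : a ≤ X0 + W := by omega
      exact_mod_cast this
    have h6 : (X0 : ℝ) ≤ b := by exact_mod_cast h3.1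
    have h7 : (b : ℝ) ≤ X0 + W := by
      have : b ≤ X0 + W := by omega
      exact_mod_cast this
    constructor <;> linarith
  calc ∏ a ∈ s, |∏ b ∈ s.erase a, ((a : ℝ) - (b : ℝ))| ≤ ((W : ℝ) ^ (s.card - 1)) ^ s.card :=
        (Finset.prod_le_prod (fun _ _ => abs_nonneg _) h1).trans_eq (Finset.prod_const _)
    _ = (W : ℝ) ^ (s.card * (s.card - 1)) := by rw [← pow_mul, mul_comm]

theorem vd_ne (s : Finset ℕ) : vd s ≠ 0 := by
  unfold vd
  refine Finset.prod_ne_zero_iff.2 fun a _ => Finset.prod_ne_zero_iff.2 fun b hb => ?_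
  have h := Finset.ne_of_mem_erase hb
  intro h1
  exact h (by omega)

end H5CQ
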