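import Pool.Agent.H5.CQ.Defs0

/-!
# [H5 CQ NUM] the numbers

`s = m n + 1`, `N = s + 1 = m n + 2`. `(1 + B^2 (2 X0)^m)^n ≤ (2 B^2 (2 X0)^m)^n = 2^(n + m n) B^(2n) X0^(m n)`, so the left side is at most
`W^(N (N-1)) * 2^(n + m n) * B^(2 n) * 4^N * X0^(m n) * X0 / X0^(m n + 2) = W^(N (N-1)) * K * B^(2n) / X0`, `K = 2^(n + m n) 4^N ≤ 2^(n + 3 m n + 4)`.
With `C ≥ 4 N (N-1)`, `C ≥ 8 n`, `C ≥ 4 (n + 3 m n + 4)`, `C ≥ 5`, `C ≥ 4 n! + 4`: the fourth powers of `W^(N(N-1))`, `B^(2n)`, `K` (`B ≥ 2`) are `≤ X0`, so the fourth power of the product is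
`≤ X0^3 < X0^4`. `4 W ≤ X0`: if `W ≥ 4` then `4 W ≤ W^2 ≤ X0`, otherwise `4 W < 16 ≤ 2^5 ≤ X0`.
-/

namespace H5CQ

open Finset Polynomial

theorem num (n m : ℕ) : ∃ C : ℕ, 4 * n.factorial + 4 ≤ C ∧ ∀ B X0 W : ℕ, 2 ≤ B → 1 ≤ W → B ^ C ≤ X0 → W ^ C ≤ X0 →
    4 ≤ X0 ∧ 4 * W ≤ X0 ∧
    (W : ℝ) ^ ((m * n + 2) * (m * n + 2 - 1)) *
      ((X0 : ℝ) / 2 * (1 + (B : ℝ) ^ 2 * (2 * X0) ^ m) ^ n * (4 / X0) ^ (m * n + 2)) < 1 := by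
  obtain ⟨N, hN⟩ : ∃ N, N = m * n + 2 := ⟨_, rfl⟩
  refine ⟨4 * (N * (N - 1)) + 8 * n + 4 * (n + 3 * (m * n) + 4) + 5 + (4 * n.factorial + 4),
    by omega, ?_⟩
  intro B X0 W hB hW hBX hWX
  obtain ⟨C, hC⟩ : ∃ C, C = 4 * (N * (N - 1)) + 8 * n + 4 * (n + 3 * (m * n) + 4) + 5 +
    (4 * n.factorial + 4) := ⟨_, rfl⟩
  rw [← hC] at hBX hWX
  rw [← hN]
  have h2X : 2 ^ C ≤ X0 := (Nat.pow_le_pow_left hB C).trans hBX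
  have h32 : 32 ≤ X0 := by
    calc 32 = 2 ^ 5 := by norm_num
      _ ≤ 2 ^ C := Nat.pow_le_pow_right (by norm_num) (by omega)
      _ ≤ X0 := h2X
  have ha : (W ^ (N * (N - 1))) ^ 4 ≤ X0 := by
    rw [← pow_mul]
    exact (Nat.pow_le_pow_right hW (by omega)).trans hWX
  have hb : (B ^ (2 * n)) ^ 4 ≤ X0 := by
    rw [← pow_mul]
    exact (Nat.pow_le_pow_right (by omega) (by omega)).trans hBX
  have hk : (2 ^ (n + 3 * (m * n) + 4)) ^ 4 ≤ X0 := by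
    rw [← pow_mul]
    exact (Nat.pow_le_pow_right (by norm_num) (by omega)).trans h2X
  have habk : W ^ (N * (N - 1)) * B ^ (2 * n) * 2 ^ (n + 3 * (m * n) + 4) < X0 := by
    apply lt_of_pow_lt_pow_left₀ 4 (Nat.zero_le _)
    calc (W ^ (N * (N - 1)) * B ^ (2 * n) * 2 ^ (n + 3 * (m * n) + 4)) ^ 4
        = (W ^ (N * (N - 1))) ^ 4 * (B ^ (2 * n)) ^ 4 * (2 ^ (n + 3 * (m * n) + 4)) ^ 4 := by
          rw [mul_pow, mul_pow]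
      _ ≤ X0 * X0 * X0 := Nat.mul_le_mul (Nat.mul_le_mul ha hb) hk
      _ < X0 ^ 4 := by
          have : X0 ^ 4 = X0 * X0 * X0 * X0 := by ring
          rw [this]
          exact lt_mul_of_one_lt_right (by positivity) (by omega)
  refine ⟨by omega, ?_, ?_⟩
  · rcases Nat.lt_or_ge W 4 with h4 | h4
    · omega
    · calc 4 * W ≤ W * W := Nat.mul_le_mul_right _ h4
        _ = W ^ 2 := by ring
        _ ≤ W ^ C := Nat.pow_le_pow_right hW (by omega)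
        _ ≤ X0 := hWX
  have hX0 : (0 : ℝ) < X0 := by
    have : 0 < X0 := by omega
    exact_mod_cast this
  have hX1 : (1 : ℝ) ≤ 2 * X0 := by
    have : 1 ≤ 2 * X0 := by omega
    exact_mod_cast this
  have hB1 : (1 : ℝ) ≤ B := by
    have : 1 ≤ B := by omega
    exact_mod_cast this
  have h1 : (1 : ℝ) + (B : ℝ) ^ 2 * (2 * X0) ^ m ≤ 2 * ((B : ℝ) ^ 2 * (2 * X0) ^ m) := by
    have h2 : (1 : ℝ) ≤ (B : ℝ) ^ 2 := one_le_pow₀ hB1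
    have h3 : (1 : ℝ) ≤ (2 * (X0 : ℝ)) ^ m := one_le_pow₀ hX1
    nlinarith
  have h4 : ((1 : ℝ) + (B : ℝ) ^ 2 * (2 * X0) ^ m) ^ n ≤
      2 ^ n * ((B : ℝ) ^ (2 * n) * (2 ^ (m * n) * (X0 : ℝ) ^ (m * n))) := by
    calc ((1 : ℝ) + (B : ℝ) ^ 2 * (2 * X0) ^ m) ^ n
        ≤ (2 * ((B : ℝ) ^ 2 * (2 * X0) ^ m)) ^ n :=
          pow_le_pow_left₀ (by positivity) h1 n
      _ = 2 ^ n * ((B : ℝ) ^ (2 * n) * (2 ^ (m * n) * (X0 : ℝ) ^ (m * n))) := by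
          rw [mul_pow, mul_pow, ← pow_mul, ← pow_mul, mul_pow]
  have h5 : (W : ℝ) ^ (N * (N - 1)) *
      ((X0 : ℝ) / 2 * (1 + (B : ℝ) ^ 2 * (2 * X0) ^ m) ^ n * (4 / X0) ^ N) ≤
      (W : ℝ) ^ (N * (N - 1)) *
      ((X0 : ℝ) / 2 * (2 ^ n * ((B : ℝ) ^ (2 * n) * (2 ^ (m * n) * (X0 : ℝ) ^ (m * n)))) *
        (4 / X0) ^ N) := by
    gcongr
  refine h5.trans_lt ?_
  have h6 : (W : ℝ) ^ (N * (N - 1)) *
      ((X0 : ℝ) / 2 * (2 ^ n * ((B : ℝ) ^ (2 * n) * (2 ^ (m * n) * (X0 : ℝ) ^ (m * n)))) *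
        (4 / X0) ^ N) =
      ((W : ℝ) ^ (N * (N - 1)) * (B : ℝ) ^ (2 * n) * 2 ^ (n + 3 * (m * n) + 4)) / (2 * X0) := by
    have h7 : (4 : ℝ) ^ N = 2 ^ (2 * (m * n)) * 2 ^ 4 := by
      have h4' : (4 : ℝ) = 2 ^ 2 := by norm_num
      rw [hN, h4', ← pow_mul, ← pow_add]
      congr 1
    have h8 : (X0 : ℝ) ^ N = (X0 : ℝ) ^ (m * n) * (X0 * X0) := by
      rw [hN, pow_add]
      ring
    have h9 : (2 : ℝ) ^ (n + 3 * (m * n) + 4) = 2 ^ n * 2 ^ (m * n) * 2 ^ (2 * (m * n)) * 2 ^ 4 := by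
      rw [← pow_add, ← pow_add, ← pow_add]
      congr 1
      ring
    rw [div_pow, h7, h8, h9]
    have hXne : (X0 : ℝ) ^ (m * n) ≠ 0 := pow_ne_zero _ hX0.ne'
    have hX0' := hX0.ne'
    generalize (W : ℝ) ^ (N * (N - 1)) = w
    generalize (B : ℝ) ^ (2 * n) = b
    generalize hx : (X0 : ℝ) ^ (m * n) = x at *
    generalize (2 : ℝ) ^ n = u
    generalize (2 : ℝ) ^ (2 * (m * n)) = v
    generalize (2 : ℝ) ^ (m * n) = v'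
    field_simp
  rw [h6, div_lt_one (by positivity)]
  have h10 : (W : ℝ) ^ (N * (N - 1)) * (B : ℝ) ^ (2 * n) * 2 ^ (n + 3 * (m * n) + 4) < X0 := by
    exact_mod_cast habk
  linarith

end H5CQ
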