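import Pool.Agent.H5.CQ.Ana
import Pool.Agent.H5.CQ.Cof
import Pool.Agent.H5.CQ.Ddc
import Pool.Agent.H5.CQ.Nrm
import Pool.Agent.H5.CQ.Num

/-!
# [H5 CQ KEY] the divided differences vanish

`C` from `num`. `t` has `m n + 2 ≥ 2` elements; `W` = the maximum of the `a - X0`, `a ∈ t` (`≥ 1` because `t` has two different elements; `W^C ≤ X0`). For each `σ : k →+* ℂ`: `σ (DD t c) = DD t (σ ∘ c)`
(`map_sum`, `map_mul`, `map_prod`, `map_inv₀`) `= DD t (E (a))`, `E = EE θ (T σ) i`, differentiable and bounded by `(1 + B^2 (2 X0)^m)^n` on `|z - X0| ≤ X0/2` (`thz_diff`, `thz_bd`, `EE_diff`, `EE_bd`); `dd_bd`;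
`|σ (vd t * DD t c)| = |vd t| |DD| < 1` (`vd_bd`, `num`); `vd_int`, `int_zero`: `vd t * DD t c = 0`, `vd_ne`.
-/

namespace H5CQ

open Finset Polynomial Pool.Agent.H87.SA2 Pool.Agent.H52.AC Pool.Agent.H97.FB

theorem key (n m : ℕ) : ∃ C : ℕ, 4 * n.factorial + 4 ≤ C ∧ ∀ (B : ℕ) (f : ℤ[X][X]) (Fm : FamB n m B f) (X0 : ℕ), B ^ C ≤ X0 →
    ∀ (k : Type) [Field k] [NumberField k] (t : Finset ℕ), t.card = m * n + 2 →
    (∀ a ∈ t, X0 ≤ a ∧ (a - X0) ^ C ≤ X0) → ∀ (c : ℕ → k) (T : (k →+* ℂ) → Finset (Fin n)) (i : ℕ),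
    (∀ a ∈ t, IsIntegral ℤ (c a)) →
    (∀ σ : k →+* ℂ, ∀ a ∈ t, σ (c a) = EE (fun l z => thz Fm.pd m l z) (T σ) i (a : ℂ)) → DD t c = 0 := by
  classical
  obtain ⟨C, hC1, hnum⟩ := num n m
  refine ⟨C, hC1, ?_⟩
  intro B f Fm X0 hX0 k _ _ t ht hta c T i hci hcσ
  have hB2 := Fm.B2
  set W : ℕ := t.sup (fun a => a - X0) with hW
  have hne : t.Nonempty := by
    rw [← card_pos, ht]
    omega
  have hWle : ∀ a ∈ t, a - X0 ≤ W := fun a ha => Finset.le_sup (f := fun a => a - X0) ha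
  have hWC : W ^ C ≤ X0 := by
    obtain ⟨a, ha, hae⟩ := Finset.exists_mem_eq_sup t hne (fun a => a - X0)
    rw [hW, hae]
    exact (hta a ha).2
  have hW1 : 1 ≤ W := by
    obtain ⟨a, ha, b, hb, hab⟩ := Finset.one_lt_card.1 (by rw [ht]; omega : 1 < t.card)
    have h1 := hWle a ha
    have h2 := hWle b hb
    have h3 := (hta a ha).1
    have h4 := (hta b hb).1
    omega
  obtain ⟨hX4, hW4, hlt⟩ := hnum B X0 W hB2 hW1 hX0 hWC
  have hXB : B ^ (4 * n.factorial + 4) ≤ X0 := (Nat.pow_le_pow_right (by omega) hC1).trans hX0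
  have hα : ((vd t : ℤ) : k) * DD t c = 0 := by
    refine int_zero _ (vd_int t c hci) fun σ => ?_
    have h1 : σ (DD t c) = DD t (fun a => EE (fun l z => thz Fm.pd m l z) (T σ) i (a : ℂ)) := by
      unfold DD
      rw [map_sum]
      refine sum_congr rfl fun a ha => ?_
      rw [map_mul, hcσ σ a ha, map_prod]
      congr 1
      refine prod_congr rfl fun b _ => ?_
      rw [map_inv₀, map_sub, map_natCast, map_natCast]
    have hK0 : (0 : ℝ) ≤ (B : ℝ) ^ 2 * (2 * X0) ^ m := by positivity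
    have h2 := dd_bd (EE (fun l z => thz Fm.pd m l z) (T σ) i) X0 hX4
      ((1 + (B : ℝ) ^ 2 * (2 * X0) ^ m) ^ n)
      (fun z hz => EE_diff _ _ _ _ fun l => thz_diff Fm X0 hXB l z hz)
      (fun z hz => EE_bd _ _ _ _ _ hK0 fun l => thz_bd Fm X0 hXB l z hz) t
      (fun a ha => ⟨(hta a ha).1, by have := hWle a ha; omega⟩)
    have h3 := vd_bd t X0 W (fun a ha => ⟨(hta a ha).1, hWle a ha⟩)
    rw [ht] at h2 h3
    rw [map_mul, map_intCast, h1, norm_mul]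
    have h4 : ‖((vd t : ℤ) : ℂ)‖ = |((vd t : ℤ) : ℝ)| := Complex.norm_intCast _
    rw [h4]
    refine lt_of_le_of_lt (mul_le_mul h3 h2 (norm_nonneg _) (by positivity)) hlt
  rcases mul_eq_zero.1 hα with h | h
  · exact absurd (by exact_mod_cast h) (vd_ne t)
  · exact h

end H5CQ
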